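import Pool.Agent.Lib.MP_ca71b5_ntY.N5
set_option autoImplicit false
open scoped NumberField

/-! Number fields of large p-class rank without infinite unramified pro-p representations of
dimension `≤ n` over any discrete valuation ring of residue characteristic `p` (MP_ca71b5_nt).

Method (helper46, papers 286 and 557; the Lean proof was written by more than 40 helpers): `K` is
cyclic of degree `p` over a layer `F` of the cyclotomic `ℤ_p`-extension of `ℚ`. The unramified
characters of order `p` of the relevant open subgroups of `Gal(F)` are described by Kummer theory;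
primes with prescribed residue symbols (Dirichlet's theorem for ray classes modulo `p`-th powers)
realise prescribed pairs of vectors which detect every alternating form of small rank over every
field of characteristic `p`; the graded pieces of the closed algebra generated by the image (over
the discrete valuation ring) only see forms of small rank. -/

namespace Pool.Agent.Results.MP_ca71b5_nt.AllValuationRings

open Pool.Agent.MPca71W Pool.Agent.MPca71X Pool.Agent.MPca71Y IsLocalRing

/-- The image of the homomorphism `ρ` is finite, abelian and killed by `p`. -/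
def FinElem (p : ℕ) {G M : Type} [Group G] [Group M] (ρ : G →* M) : Prop :=
  (Set.range ρ).Finite ∧ (∀ g, ρ g ^ p = 1) ∧ ∀ g h, ρ g * ρ h = ρ h * ρ g

/-- For every discrete valuation ring `R` with residue field of characteristic `p`, with the
topology of its maximal ideal, every continuous representation of dimension `m ≤ n` of `Gal(Ω/K)`
over `R` cutting out an unramified pro-`p` extension has finite image, abelian and killed by `p`. -/
def AllFin (p n : ℕ) (K Ω : Type) [Field K] [Field Ω] [Algebra K Ω] : Prop :=
  ∀ (R : Type) [CommRing R] [IsDomain R] [IsDiscreteValuationRing R] [TopologicalSpace R],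
    IsAdic (maximalIdeal R) → CharP (ResidueField R) p → ∀ m ≤ n,
    ∀ ρ : (Ω ≃ₐ[K] Ω) →* Matrix.GeneralLinearGroup (Fin m) R,
      Continuous ρ → UnrPro p K Ω ρ → FinElem p ρ

/-- Every continuous representation of `Gal(Ω/K)` over `ℤ_p`, of any dimension `m`, which cuts out
an unramified pro-`p` extension and whose image has a Lie algebra of dimension `≤ n`, has finite
image. -/
def LieFin (p n : ℕ) [Fact p.Prime] (K Ω : Type) [Field K] [Field Ω] [Algebra K Ω] : Prop :=
  ∀ (m : ℕ) (ρ : (Ω ≃ₐ[K] Ω) →* Matrix.GeneralLinearGroup (Fin m) (PadicInt p)),
    Continuous ρ → UnrPro p K Ω ρ →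
      Module.finrank ℚ_[p] (lieSpan p ρ) ≤ n → (Set.range ρ).Finite

/-- For every odd prime `p` and all `n`, `s` there is a number field `K`, of explicitly bounded
degree, which has an unramified elementary abelian extension of degree `p ^ s`, and satisfies
`AllFin` and `LieFin`. -/
theorem result (p : ℕ) [Fact p.Prime] (hp2 : p ≠ 2) (n s a : ℕ) (ha : 2 * (s + 1) ≤ p ^ a) :
    ∃ (K : Type) (_ : Field K) (_ : NumberField K),
      Module.finrank ℚ K ≤ p ^ 2 * ((s + 1) * (1 + 2 * (p * n) ^ 2 * a ^ 2)) ∧
      UnrElem p s K (AlgebraicClosure K) ∧ AllFin p n K (AlgebraicClosure K) ∧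
      LieFin p n K (AlgebraicClosure K) :=
  Pool.Agent.MPca71Y.fm_all p hp2 n s a ha

end Pool.Agent.Results.MP_ca71b5_nt.AllValuationRings
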