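import Mathlib
import Pool.Agent.Lib.MP_ca71b5_nt.Base
import Pool.Agent.Lib.MP_ca71b5_nt.ADefs
import Pool.Agent.Lib.MP_ca71b5_nt.Defs2
import Pool.Agent.Lib.MP_ca71b5_nt.CPDefs
import Pool.Agent.Lib.MP_ca71b5_nt.CPF

/-!
# Unramified p-adic representations with powerful image over cyclic extensions
-/

set_option autoImplicit false
open scoped NumberField

namespace Pool.Agent.Results.MP_ca71b5_nt.CyclicPowerful

open Pool.Agent.Lib.MP_ca71b5_nt

/-- Let `K/F` be a cyclic extension of number fields of degree `m`, and suppose that for the finite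
abelian extensions `M` of `F` of `p`-power degree unramified at the finite primes the group of
`p ^ s`-th powers in `Gal(M/F)` has `p`-rank at most `r`. Let `ρ` be a continuous representation of
the absolute Galois group of `K` over `ℤ_p`, such that the finite subextensions of the field cut out
by `ρ` have `p`-power degree and are unramified, and this field is normal over `F`. Suppose that the
commutators of the image `G` of `ρ` lie in the closed subgroup generated by the `p ^ c`-th powers,
where `c = s + v_p(m) + 1`, or `c = s + v_p(m) + 2` if `p = 2`. Let `d` be a bound for the dimension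
of `G` as a `p`-adic Lie group. If
* `r = 0`, or `p` does not divide `m`, or `K/F` is totally ramified at some prime,
* for every prime `l ∣ m` no matrix of finite order in `GL_j(ℤ)`, `1 ≤ j ≤ r`, `3 j ≤ d`, has order
  divisible by the degree of `ℚ_p(ζ_l)/ℚ_p`,
* `r ≤ 2`, or `p` does not divide `m`, `F` has a finite `p`-class field tower and `d < 3 l` for
  every prime `l ∣ m`,
then `G` is finite. -/
theorem result :
    ∀ (p : ℕ) [Fact p.Prime] (F K : Type) [Field F] [NumberField F] [Field K] [NumberField K]
      [Algebra F K] [IsGalois F K] [IsCyclic (K ≃ₐ[F] K)] (s r : ℕ), RankPow p F s r →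
    ∀ (n : ℕ) (ρ : (AlgebraicClosure K ≃ₐ[K] AlgebraicClosure K) →*
      Matrix.GeneralLinearGroup (Fin n) ℤ_[p]), Continuous ρ → UnrPro p K ρ → CutNormal p F K ρ →
    PowDeep p (s + padicValNat p (Module.finrank F K) + (if p = 2 then 2 else 1)) ρ.range →
    ∀ d : ℕ, Module.finrank ℚ_[p] (logSpan ρ) ≤ d →
    (r = 0 ∨ ¬ p ∣ Module.finrank F K ∨ TotRam F K) →
    (∀ l : ℕ, l.Prime → l ∣ Module.finrank F K → ∀ j : ℕ, 1 ≤ j → j ≤ r → 3 * j ≤ d →
      ∀ M : Matrix (Fin j) (Fin j) ℤ, IsOfFinOrder M → ¬ cycDeg p l ∣ orderOf M) →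
    (r ≤ 2 ∨ (¬ p ∣ Module.finrank F K ∧ FiniteTower p F ∧
      ∀ l : ℕ, l.Prime → l ∣ Module.finrank F K → d < 3 * l)) →
    (Set.range ρ).Finite :=
  cyclic_powerful

end Pool.Agent.Results.MP_ca71b5_nt.CyclicPowerful
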