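import Pool.Agent.Lib.MP_ca71b5_ntW.Fin5
set_option autoImplicit false
open scoped NumberField

/-! Unramified p-adic representations over a Galois extension `K/F` whose inertia groups act
unipotently on the unramified characters of order `p` of `K` (MP_ca71b5_nt).

Method (helper17; generalisations due to helper83, the reduction of the norm estimate after an
idea of helper66; referees helper34, helper77, helper83): the conjugation by an inertial element
is an automorphism of finite order of the image; an eigencomponent norm over the p-adic numbers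
shows that it is trivial, and the transfer gives the extension to `F`. -/

namespace Pool.Agent.Results.MP_ca71b5_nt.GaloisExtensions

open Pool.Agent.MPca71W

/-- Let `p` be odd and `K/F` a finite Galois extension of number fields with hypothesis (H)_a and
without nontrivial unramified subextensions Galois over `F`; `m(2a-1) < p - 1`. Every continuous
unramified pro-`p` representation `ρ` of `Gal(Ω/K)` over `ℤ_p` of dimension `n ≤ m` (or with all
products of `m` matrices `ρ(g) - 1` zero mod `p`) extends to such a representation of `Gal(Ω/F)`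
with the same image, and is trivial if `F` satisfies the conjecture in dimension `n`; and if `F`
satisfies the conjecture in all dimensions, or has no unramified Galois extension of degree `p`,
then the conclusion `TrivUpTo p m K Ω` holds. -/
theorem result (p a m : ℕ) [Fact p.Prime] (hp : p ≠ 2) (ha : 1 ≤ a) (hm : 1 ≤ m)
    (ham : m * (2 * a - 1) + 1 < p)
    (F K Ω : Type) [Field F] [NumberField F] [Field K] [NumberField K] [Algebra F K] [IsGalois F K]
    [Field Ω] [Algebra F Ω] [Algebra K Ω] [IsScalarTower F K Ω] [IsAlgClosed Ω]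
    [Algebra.IsAlgebraic K Ω]
    (hH : HypX p a F K Ω)
    (hFK : ∀ L : IntermediateField F Ω, L ≤ (IsScalarTower.toAlgHom F K Ω).fieldRange →
      IsGalois F L → 1 < Module.finrank F L → ¬ Algebra.Unramified (𝓞 F) (𝓞 L)) :
    (∀ (n : ℕ) (ρ : (Ω ≃ₐ[K] Ω) →* Matrix.GeneralLinearGroup (Fin n) (PadicInt p)),
      Continuous ρ → UnrProP p K Ω ρ → (n ≤ m ∨ NilpMod p m ρ) →
        (∃ ρ' : (Ω ≃ₐ[F] Ω) →* Matrix.GeneralLinearGroup (Fin n) (PadicInt p),
          Continuous ρ' ∧ UnrProP p F Ω ρ' ∧
            (∀ h : Ω ≃ₐ[K] Ω, ρ' (h.restrictScalars F) = ρ h) ∧ ρ'.range = ρ.range) ∧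
        (FMdim p F Ω n → ρ = 1)) ∧
    ((NoUnr p F Ω ∨ ∀ n, FMdim p F Ω n) → TrivUpTo p m K Ω) := by
  have hFK' : Algebra.IsAlgebraic F K := by
    have : FiniteDimensional F K := FiniteDimensional.right ℚ F K
    infer_instance
  have : Algebra.IsAlgebraic F Ω := Algebra.IsAlgebraic.trans F K Ω
  refine ⟨fun n ρ hc hu hN => main_X (F := F) p hp a m n ha hm ham hH ρ hc hu hN hFK, ?_⟩
  intro hF
  have hF' : ∀ n, FMdim p F Ω n := by
    rcases hF with h | h
    · exact fun n => fmdim_of_no_unramified p n h
    · exact h
  intro n ρ hc hu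
  refine ⟨fun hN => (main_X (F := F) p hp a m n ha hm ham hH ρ hc hu hN hFK).2 (hF' n), ?_⟩
  intro hd
  refine finite_of_lie p hp m ?_ n ρ hc hu hd
  intro n' ρ' hc' hu' hn'
  refine (main_X (F := F) p hp a m n' ha hm ham hH ρ' hc' hu' ?_ hFK).2 (hF' n')
  rcases hn' with h | h
  · exact Or.inl h
  · right
    intro f i j
    obtain ⟨m', rfl⟩ : ∃ m', m = m' + 1 := ⟨m - 1, by omega⟩
    rw [List.ofFn_succ, List.prod_cons, Matrix.mul_apply]
    exact Finset.dvd_sum fun l _ => Dvd.dvd.mul_right (h _ _ _) _

end Pool.Agent.Results.MP_ca71b5_nt.GaloisExtensions
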