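import Pool.Agent.Lib.MP_ca71b5_ntW.Fam
set_option autoImplicit false
open scoped NumberField

/-! Cyclic fields of degree `p` over the rational numbers whose Rédei matrix has maximal rank have
no nontrivial unramified p-adic representations of dimension `≤ p - 2` (MP_ca71b5_nt). -/

namespace Pool.Agent.Results.MP_ca71b5_nt.RedeiFamily

open Pool.Agent.MPca71W

/-- For every odd prime `p`: the family is infinite for each number `t ≤ p` of ramified primes, and
for all its members `K = KF Ω p N lg` (any `t`), `K` is cyclic of degree `p` over `ℚ` and has an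
unramified extension of degree `p ^ (t - 1)` if `t > 0`, and the conclusion `TrivUpTo` holds for
`m = p - 2`. -/
theorem result (p : ℕ) [Fact p.Prime] (hp : p ≠ 2) :
    (∀ t ≤ p, ∀ B : ℕ, ∃ (q : Fin t → ℕ) (lg : ∀ i, ZMod (q i) → ZMod p),
      (∀ i, B < q i) ∧ RedeiData p q q lg) ∧
    ∀ (t : ℕ) (q N : Fin t → ℕ) [∀ i, NeZero (N i)] (lg : ∀ i, ZMod (N i) → ZMod p),
      RedeiData p q N lg →
      ∀ (Ω : Type) [Field Ω] [Algebra ℚ Ω] [IsAlgClosed Ω] [Algebra.IsAlgebraic ℚ Ω],
        (0 < t → IsGalois ℚ (KF Ω p N lg) ∧ Module.finrank ℚ (KF Ω p N lg) = p ∧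
          UnrExt p (t - 1) (KF Ω p N lg) Ω) ∧
        TrivUpTo p (p - 2) (KF Ω p N lg) Ω := by
  have hp3 : 3 ≤ p := by
    rcases (Fact.out : p.Prime).eq_two_or_odd with h | h
    · exact absurd h hp
    · have := (Fact.out : p.Prime).two_le; omega
  constructor
  · intro t ht B
    obtain ⟨q, lg, h1, h2, h3, -, h4, h5⟩ := exists_redei p t ht B
    exact ⟨q, lg, h2, h1, h3, fun i => ⟨1, (pow_one _).symm⟩, h4, h5⟩
  · rintro t q N _ lg ⟨hq, hinj, hN, hlg, hR⟩ Ω _ _ _ _
    obtain ⟨h1, h2⟩ := family_all (Ω := Ω) p hp q N lg hq hinj hN hlg hR (KF Ω p N lg) rfl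
    refine ⟨fun ht => ?_, ?_⟩
    · obtain ⟨h3, h4, h5⟩ := h1 ht
      refine ⟨?_, h4, h5⟩
      convert h3
      exact Subsingleton.elim _ _
    · intro n ρ hc hu
      obtain ⟨h6, h7⟩ := h2 n ρ hc hu
      refine ⟨fun h => h6 ?_, fun h => h7 (by omega)⟩
      rcases h with h | h
      · left; omega
      · right; exact h

end Pool.Agent.Results.MP_ca71b5_nt.RedeiFamily
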